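import Pool.Agent.Helper41.LD5.Defs
import Pool.Agent.Helper5.LD5.SQ1

/-!
# Project LD5, block SQ2: windows of a sequence of increasing convex functions

`sq_Wd0` takes the two facts of block SQ1 (`cv_int`, `cv_far`) for the function `f` as hypotheses, `sq_Wd` is the final form.
-/

set_option autoImplicit false

namespace Pool.Agent.Helper27.LD5

open Set MeasureTheory
open Pool.Agent.Helper41.LD4
open Pool.Agent.Helper41.LD5



variable {N₀ m : ℕ} {w : ℝ} {f : ℝ → ℝ} {a ℓ : ℝ}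

/-- the growth over several steps -/
theorem sq_grow {U V : ℕ → ℝ → ℝ} {β p q : ℝ} (h : Sq U V β p q) {x : ℝ} (hx : x ∈ Icc p q) (j d : ℕ) : β ^ d * V j x ≤ V (j + d) x := by
  have hβ0 : 0 < β := lt_trans one_pos h.hβ
  induction d with
  | zero => simp
  | succ d ih =>
    calc β ^ (d + 1) * V j x = β * (β ^ d * V j x) := by ring
      _ ≤ β * V (j + d) x := mul_le_mul_of_nonneg_left ih hβ0.le
      _ ≤ V (j + d + 1) x := h.grow (j + d) x hx
      _ = V (j + (d + 1)) x := by rw [Nat.add_assoc]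

/-- one unit of `U` costs at least `1 / V` -/
theorem cv_unit {U V : ℝ → ℝ} {p q : ℝ} (h : Cv U V p q) (hpq : p < q) : U q - U p ≤ V q * (q - p) := by
  obtain ⟨c, hc, he⟩ := exists_hasDerivAt_eq_slope U V hpq
    (fun x hx => (h.der x hx).continuousAt.continuousWithinAt) (fun x hx => h.der x ⟨hx.1.le, hx.2.le⟩)
  have h1 : V c ≤ V q := h.mono ⟨hc.1.le, hc.2.le⟩ ⟨hpq.le, le_rfl⟩ hc.2.le
  have h2 : 0 < q - p := sub_pos.2 hpq
  rw [he, div_le_iff₀ h2] at h1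
  exact h1

/-- the sum over the pieces, by induction on the number of the units -/
theorem sq_pieces (Hint : ∀ {U V : ℝ → ℝ} {p q : ℝ}, Cv U V p q → p ≤ q → |∫ x in p..q, f (U x)| ≤ w / V p)
    (Hfar : ∀ {U V : ℝ → ℝ} {p q : ℝ}, Cv U V p q → p ≤ q → ∀ {g : ℝ → ℝ}, Measurable g → (∀ x, |g x| ≤ 1) → ∀ {η : ℝ},
      (∀ s t, p ≤ s → s ≤ t → t ≤ q → |∫ x in s..t, g x| ≤ η) → |∫ x in p..q, f (U x) * g x| ≤ m * η * (U q - U p + 2))
    {U V U' V' : ℝ → ℝ} {p q c : ℝ} (hfm : Measurable f) (hfb : ∀ x, |f x| ≤ 1) (hw : 0 ≤ w) (h : Cv U V p q) (h' : Cv U' V' p q) (hc : 0 < c)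
    (hV : ∀ x ∈ Icc p q, V x ≤ c * V' x) (N : ℕ) :
    ∀ s : ℝ, p ≤ s → s ≤ q → U q - U s ≤ N → |∫ x in s..q, f (U x) * f (U' x)| ≤ 3 * m * w * c * (1 / V s + (q - s)) := by
  -- one piece
  have one : ∀ s t : ℝ, p ≤ s → s ≤ t → t ≤ q → U t - U s ≤ 1 → |∫ x in s..t, f (U x) * f (U' x)| ≤ 3 * m * w * c * (1 / V s) := by
    intro s t hps hst htq hU
    have hs : s ∈ Icc p q := ⟨hps, hst.trans htq⟩
    have hVs := h.pos s hs
    have hV's := h'.pos s hs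
    have hη : ∀ s' t' : ℝ, s ≤ s' → s' ≤ t' → t' ≤ t → |∫ x in s'..t', f (U' x)| ≤ w / V' s := by
      intro s' t' h1 h2 h3
      refine (Hint (h'.sub (hps.trans h1) (h3.trans htq)) h2).trans ?_
      exact div_le_div_of_nonneg_left hw hV's (h'.mono hs ⟨hps.trans h1, (h2.trans h3).trans htq⟩ h1)
    have h1 := Hfar (h.sub hps htq) hst (hfm.comp h'.meas) (fun x => hfb _) hη
    refine h1.trans ?_
    have h2 : w / V' s ≤ w * c * (1 / V s) := by
      rw [div_le_iff₀ hV's]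
      have h3 : 1 ≤ c * (1 / V s) * V' s := by
        have := hV s hs
        have h4 : c * (1 / V s) * V' s = c * V' s / V s := by ring
        rw [h4, le_div_iff₀ hVs]
        linarith
      calc w = w * 1 := by ring
        _ ≤ w * (c * (1 / V s) * V' s) := mul_le_mul_of_nonneg_left h3 hw
        _ = w * c * (1 / V s) * V' s := by ring
    have h0 : 0 ≤ w / V' s := div_nonneg hw hV's.le
    have hm0 : (0 : ℝ) ≤ m := Nat.cast_nonneg m
    calc (m : ℝ) * (w / V' s) * (U t - U s + 2) ≤ m * (w / V' s) * 3 := mul_le_mul_of_nonneg_left (by linarith) (mul_nonneg hm0 h0)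
      _ ≤ m * (w * c * (1 / V s)) * 3 := by
        refine mul_le_mul_of_nonneg_right (mul_le_mul_of_nonneg_left h2 hm0) (by norm_num)
      _ = 3 * m * w * c * (1 / V s) := by ring
  have hm0 : (0 : ℝ) ≤ m := Nat.cast_nonneg m
  have hC : 0 ≤ 3 * m * w * c := mul_nonneg (mul_nonneg (mul_nonneg (by norm_num) hm0) hw) hc.le
  have hint : ∀ s t : ℝ, IntervalIntegrable (fun x => f (U x) * f (U' x)) volume s t := by
    intro s t
    refine (intervalIntegrable_const (c := (1 : ℝ))).mono_fun ((hfm.comp h.meas).mul (hfm.comp h'.meas)).aestronglyMeasurable ?_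
    refine Filter.Eventually.of_forall fun x => ?_
    simp only [norm_mul, Real.norm_eq_abs, abs_one]
    exact mul_le_one₀ (hfb _) (abs_nonneg _) (hfb _)
  induction N with
  | zero =>
    intro s hps hsq hU
    refine (one s q hps hsq le_rfl (by
      have : ((0 : ℕ) : ℝ) = 0 := Nat.cast_zero
      linarith)).trans ?_
    exact mul_le_mul_of_nonneg_left (by linarith) hC
  | succ N ih =>
    intro s hps hsq hU
    by_cases h1 : U q - U s ≤ 1
    · refine (one s q hps hsq le_rfl h1).trans ?_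
      exact mul_le_mul_of_nonneg_left (by linarith) hC
    · push Not at h1
      have hcont : ContinuousOn U (Icc s q) := fun x hx => (h.der x ⟨hps.trans hx.1, hx.2⟩).continuousAt.continuousWithinAt
      obtain ⟨t, ht, hUt⟩ : ∃ t ∈ Icc s q, U t = U s + 1 :=
        intermediate_value_Icc hsq hcont ⟨by linarith, by linarith⟩
      have hst : s < t := by
        rcases eq_or_lt_of_le ht.1 with h2 | h2
        · rw [← h2] at hUt; linarith
        · exact h2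
      have h2 := one s t hps ht.1 ht.2 (by linarith)
      have h3 := ih t (hps.trans ht.1) ht.2 (by
        rw [hUt]; push_cast at hU; linarith)
      have hVt : 0 < V t := h.pos t ⟨hps.trans ht.1, ht.2⟩
      have h4 : 1 / V t ≤ t - s := by
        have h5 := cv_unit (h.sub hps ht.2) hst
        rw [hUt] at h5
        rw [div_le_iff₀ hVt]
        linarith [mul_comm (V t) (t - s)]
      rw [← intervalIntegral.integral_add_adjacent_intervals (hint s t) (hint t q)]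
      calc |(∫ x in s..t, f (U x) * f (U' x)) + ∫ x in t..q, f (U x) * f (U' x)|
          ≤ |∫ x in s..t, f (U x) * f (U' x)| + |∫ x in t..q, f (U x) * f (U' x)| := abs_add_le _ _
        _ ≤ 3 * m * w * c * (1 / V s) + 3 * m * w * c * (1 / V t + (q - t)) := add_le_add h2 h3
        _ = 3 * m * w * c * (1 / V s + (1 / V t + (q - t))) := by ring
        _ ≤ 3 * m * w * c * (1 / V s + (q - s)) := mul_le_mul_of_nonneg_left (by linarith) hC

/-- SQ2 -/
theorem sq_Wd0 (Hint : ∀ {U V : ℝ → ℝ} {p q : ℝ}, Cv U V p q → p ≤ q → |∫ x in p..q, f (U x)| ≤ w / V p)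
    (Hfar : ∀ {U V : ℝ → ℝ} {p q : ℝ}, Cv U V p q → p ≤ q → ∀ {g : ℝ → ℝ}, Measurable g → (∀ x, |g x| ≤ 1) → ∀ {η : ℝ},
      (∀ s t, p ≤ s → s ≤ t → t ≤ q → |∫ x in s..t, g x| ≤ η) → |∫ x in p..q, f (U x) * g x| ≤ m * η * (U q - U p + 2))
    {U V : ℕ → ℝ → ℝ} {β : ℝ} {n : ℕ} (hf : Fn N₀ m w f) (hm : 1 ≤ m) (hw : 0 ≤ w) (h : Sq U V β a (a + ℓ)) (hℓ : 0 < ℓ)
    (hn : 1 ≤ V n a * ℓ) : Wd (fun j x => f (U j x)) β (6 * m * w) n a ℓ := by
  have hm1 : (1 : ℝ) ≤ m := by exact_mod_cast hm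
  have hβ0 : 0 < β := lt_trans one_pos h.hβ
  have ha : a ∈ Icc a (a + ℓ) := ⟨le_rfl, by linarith⟩
  have haℓ : a ≤ a + ℓ := by linarith
  -- the derivatives at the left end
  have key : ∀ j : ℕ, n ≤ j → 1 / V j a ≤ β⁻¹ ^ (j - n) * ℓ := by
    intro j hj
    obtain ⟨d, rfl⟩ := Nat.exists_eq_add_of_le hj
    have h1 := sq_grow h ha n d
    have hV := (h.cv (n + d)).pos a ha
    have hb : 0 < β ^ d := pow_pos hβ0 d
    have hbi : β⁻¹ ^ d * β ^ d = 1 := by rw [← mul_pow, inv_mul_cancel₀ hβ0.ne', one_pow]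
    rw [Nat.add_sub_cancel_left, div_le_iff₀ hV]
    have hbi0 : 0 ≤ β⁻¹ ^ d * ℓ := mul_nonneg (pow_nonneg (inv_nonneg.2 hβ0.le) d) hℓ.le
    calc (1 : ℝ) ≤ V n a * ℓ := hn
      _ = β⁻¹ ^ d * β ^ d * (V n a * ℓ) := by rw [hbi, one_mul]
      _ = β⁻¹ ^ d * ℓ * (β ^ d * V n a) := by ring
      _ ≤ β⁻¹ ^ d * ℓ * V (n + d) a := mul_le_mul_of_nonneg_left h1 hbi0
  refine ⟨hℓ, h.hβ, by positivity, fun j => hf.meas.comp (h.cv j).meas, fun j x => hf.bdd _, ?_, ?_⟩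
  · intro j hj
    refine (Hint (h.cv j) haℓ).trans ?_
    have h1 : w / V j a = w * (1 / V j a) := by ring
    rw [h1]
    have hpos : 0 ≤ β⁻¹ ^ (j - n) * ℓ := mul_nonneg (pow_nonneg (inv_nonneg.2 hβ0.le) _) hℓ.le
    calc w * (1 / V j a) ≤ w * (β⁻¹ ^ (j - n) * ℓ) := mul_le_mul_of_nonneg_left (key j hj) hw
      _ = 1 * (w * (β⁻¹ ^ (j - n) * ℓ)) := by ring
      _ ≤ (6 * m) * (w * (β⁻¹ ^ (j - n) * ℓ)) := mul_le_mul_of_nonneg_right (by linarith) (mul_nonneg hw hpos)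
      _ = 6 * m * w * β⁻¹ ^ (j - n) * ℓ := by ring
  · intro j₁ j₂ hj₁ hj₂
    obtain ⟨d, rfl⟩ := Nat.exists_eq_add_of_le hj₂
    have hbi : β⁻¹ ^ d * β ^ d = 1 := by rw [← mul_pow, inv_mul_cancel₀ hβ0.ne', one_pow]
    have hbi0 : 0 < β⁻¹ ^ d := pow_pos (inv_pos.2 hβ0) d
    obtain ⟨N, hN⟩ := exists_nat_ge (U j₁ (a + ℓ) - U j₁ a)
    have h1 := sq_pieces Hint Hfar hf.meas hf.bdd hw (h.cv j₁) (h.cv (j₁ + d)) hbi0 (fun x hx => by
      have h2 := sq_grow h hx j₁ d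
      calc V j₁ x = β⁻¹ ^ d * β ^ d * V j₁ x := by rw [hbi, one_mul]
        _ = β⁻¹ ^ d * (β ^ d * V j₁ x) := by ring
        _ ≤ β⁻¹ ^ d * V (j₁ + d) x := mul_le_mul_of_nonneg_left h2 hbi0.le) N a le_rfl haℓ hN
    refine h1.trans ?_
    have h3 : 1 / V j₁ a ≤ ℓ := by
      refine (key j₁ hj₁).trans ?_
      have : β⁻¹ ^ (j₁ - n) ≤ 1 := pow_le_one₀ (inv_nonneg.2 hβ0.le) (inv_le_one_of_one_le₀ h.hβ.le)
      calc β⁻¹ ^ (j₁ - n) * ℓ ≤ 1 * ℓ := mul_le_mul_of_nonneg_right this hℓ.le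
        _ = ℓ := one_mul ℓ
    rw [Nat.add_sub_cancel_left]
    have hC : 0 ≤ 3 * m * w * β⁻¹ ^ d := by positivity
    calc 3 * m * w * β⁻¹ ^ d * (1 / V j₁ a + (a + ℓ - a)) ≤ 3 * m * w * β⁻¹ ^ d * (2 * ℓ) := mul_le_mul_of_nonneg_left (by linarith) hC
      _ = 6 * m * w * β⁻¹ ^ d * ℓ := by ring

/-- SQ2, final form -/
theorem sq_Wd {U V : ℕ → ℝ → ℝ} {β : ℝ} {n : ℕ} (hf : Fn N₀ m w f) (hm : 1 ≤ m) (hw : 0 ≤ w) (h : Sq U V β a (a + ℓ)) (hℓ : 0 < ℓ)
    (hn : 1 ≤ V n a * ℓ) : Wd (fun j x => f (U j x)) β (6 * m * w) n a ℓ :=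
  sq_Wd0 (fun h hpq => Pool.Agent.Helper5.LD5.cv_int hf h hpq)
    (fun h hpq _ hg hg1 _ hη => Pool.Agent.Helper5.LD5.cv_far hf h hpq hg hg1 hη) hf hm hw h hℓ hn

end Pool.Agent.Helper27.LD5
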